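import Mathlib

/-!
# Bonami's inequality on the sign cube

Averages over the finite cube `ι → Bool`, Walsh functions, degree filtration, the inequality
`E f^4 ≤ 9^d (E f^2)^2` for `f` of degree at most `d`, its iteration, and independence of functions
of disjoint sets of coordinates.
-/

set_option autoImplicit false
set_option linter.unusedSectionVars false

namespace Pool.Agent.helper42.PEL

open Finset

variable {ι : Type} [Fintype ι] [DecidableEq ι]

/-- sign of a bit -/
def sg (b : Bool) : ℝ := if b then 1 else -1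

lemma sg_mul_self (b : Bool) : sg b * sg b = 1 := by cases b <;> simp [sg]
lemma sg_sq (b : Bool) : sg b ^ 2 = 1 := by cases b <;> simp [sg]
lemma sg_abs (b : Bool) : |sg b| = 1 := by cases b <;> simp [sg]
lemma sg_not (b : Bool) : sg (!b) = - sg b := by cases b <;> simp [sg]
lemma sg_cases (b : Bool) : sg b = 1 ∨ sg b = -1 := by cases b <;> simp [sg]

/-- average over the cube -/
noncomputable def EE (f : (ι → Bool) → ℝ) : ℝ := (∑ ω, f ω) / 2 ^ Fintype.card ι

lemma two_pow_pos : (0 : ℝ) < 2 ^ Fintype.card ι := by positivity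

lemma EE_add (f g : (ι → Bool) → ℝ) : EE (fun ω => f ω + g ω) = EE f + EE g := by
  unfold EE; rw [Finset.sum_add_distrib, add_div]

lemma EE_sub (f g : (ι → Bool) → ℝ) : EE (fun ω => f ω - g ω) = EE f - EE g := by
  unfold EE; rw [Finset.sum_sub_distrib, sub_div]

lemma EE_smul (c : ℝ) (f : (ι → Bool) → ℝ) : EE (fun ω => c * f ω) = c * EE f := by
  unfold EE; rw [← Finset.mul_sum, mul_div_assoc]

lemma EE_sum {κ : Type} (s : Finset κ) (f : κ → (ι → Bool) → ℝ) :
    EE (fun ω => ∑ k ∈ s, f k ω) = ∑ k ∈ s, EE (f k) := by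
  unfold EE; rw [Finset.sum_comm, Finset.sum_div]

lemma EE_const (c : ℝ) : EE (fun _ : ι → Bool => c) = c := by
  unfold EE
  rw [Finset.sum_const, Finset.card_univ, Fintype.card_pi]
  simp only [Fintype.card_bool, Finset.prod_const, Finset.card_univ, nsmul_eq_mul]
  push_cast
  field_simp

lemma EE_mono {f g : (ι → Bool) → ℝ} (h : ∀ ω, f ω ≤ g ω) : EE f ≤ EE g := by
  unfold EE
  exact div_le_div_of_nonneg_right (Finset.sum_le_sum fun ω _ => h ω) two_pow_pos.le

lemma EE_nonneg {f : (ι → Bool) → ℝ} (h : ∀ ω, 0 ≤ f ω) : 0 ≤ EE f := by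
  unfold EE
  exact div_nonneg (Finset.sum_nonneg fun ω _ => h ω) two_pow_pos.le

lemma EE_cs (f g : (ι → Bool) → ℝ) :
    (EE (fun ω => f ω * g ω)) ^ 2 ≤ EE (fun ω => f ω ^ 2) * EE (fun ω => g ω ^ 2) := by
  unfold EE
  rw [div_pow, div_mul_div_comm, ← sq]
  exact div_le_div_of_nonneg_right (Finset.sum_mul_sq_le_sq_mul_sq _ _ _) (by positivity)

/-- flip one coordinate -/
def flp (a : ι) (ω : ι → Bool) : ι → Bool := Function.update ω a (!ω a)

lemma flp_flp (a : ι) (ω : ι → Bool) : flp a (flp a ω) = ω := by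
  unfold flp; simp

lemma flp_same (a : ι) (ω : ι → Bool) : flp a ω a = !ω a := by simp [flp]
lemma flp_ne {a i : ι} (h : i ≠ a) (ω : ι → Bool) : flp a ω i = ω i := by simp [flp, h]

lemma EE_flp (a : ι) (f : (ι → Bool) → ℝ) : EE (fun ω => f (flp a ω)) = EE f := by
  unfold EE
  congr 1
  exact Equiv.sum_comp (Function.Involutive.toPerm (flp a) (flp_flp a)) f

lemma EE_odd (a : ι) (f : (ι → Bool) → ℝ) (h : ∀ ω, f (flp a ω) = f ω) :
    EE (fun ω => sg (ω a) * f ω) = 0 := by
  have h1 := EE_flp a (fun ω => sg (ω a) * f ω)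
  have h2 : (fun ω => (fun ω => sg (ω a) * f ω) (flp a ω)) = fun ω => (-1) * (sg (ω a) * f ω) := by
    funext ω
    simp only [flp_same, sg_not, h]
    ring
  rw [h2, EE_smul] at h1
  linarith

/-- Walsh functions -/
def chi (S : Finset ι) (ω : ι → Bool) : ℝ := ∏ i ∈ S, sg (ω i)

lemma chi_empty : chi (∅ : Finset ι) = fun _ => 1 := by funext ω; simp [chi]

lemma chi_flp {a : ι} {S : Finset ι} (h : a ∉ S) (ω : ι → Bool) : chi S (flp a ω) = chi S ω := by
  unfold chi
  exact Finset.prod_congr rfl fun i hi => by rw [flp_ne (ne_of_mem_of_not_mem hi h)]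

lemma chi_erase {a : ι} {S : Finset ι} (h : a ∈ S) (ω : ι → Bool) :
    chi S ω = sg (ω a) * chi (S.erase a) ω := by
  unfold chi
  exact (Finset.mul_prod_erase S (fun i => sg (ω i)) h).symm

lemma chi_mul (S T : Finset ι) (ω : ι → Bool) : chi S ω * chi T ω = chi (symmDiff S T) ω := by
  unfold chi
  have hS : S = (S \ T) ∪ (S ∩ T) := by rw [Finset.sdiff_union_inter]
  have hT : T = (T \ S) ∪ (S ∩ T) := by rw [Finset.inter_comm, Finset.sdiff_union_inter]
  have e1 : ∏ i ∈ S, sg (ω i) = (∏ i ∈ S \ T, sg (ω i)) * ∏ i ∈ S ∩ T, sg (ω i) := by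
    conv_lhs => rw [hS]
    rw [Finset.prod_union (Finset.disjoint_sdiff_inter _ _)]
  have e2 : ∏ i ∈ T, sg (ω i) = (∏ i ∈ T \ S, sg (ω i)) * ∏ i ∈ S ∩ T, sg (ω i) := by
    conv_lhs => rw [hT]
    rw [Finset.prod_union]
    rw [Finset.inter_comm]
    exact Finset.disjoint_sdiff_inter _ _
  have e3 : ∏ i ∈ symmDiff S T, sg (ω i) = (∏ i ∈ S \ T, sg (ω i)) * ∏ i ∈ T \ S, sg (ω i) := by
    rw [symmDiff_def, Finset.sup_eq_union, Finset.prod_union]
    exact disjoint_sdiff_sdiff
  have e4 : (∏ i ∈ S ∩ T, sg (ω i)) * (∏ i ∈ S ∩ T, sg (ω i)) = 1 := by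
    rw [← Finset.prod_mul_distrib]
    exact Finset.prod_eq_one fun i _ => sg_mul_self _
  rw [e1, e2, e3]
  calc _ = (∏ i ∈ S \ T, sg (ω i)) * (∏ i ∈ T \ S, sg (ω i)) *
        ((∏ i ∈ S ∩ T, sg (ω i)) * (∏ i ∈ S ∩ T, sg (ω i))) := by ring
    _ = _ := by rw [e4, mul_one]

/-- functions of degree at most `d` in the coordinates of `s` -/
def W (s : Finset ι) (d : ℕ) : Submodule ℝ ((ι → Bool) → ℝ) :=
  Submodule.span ℝ {f | ∃ S : Finset ι, S ⊆ s ∧ S.card ≤ d ∧ f = chi S}

lemma chi_mem {s S : Finset ι} {d : ℕ} (h : S ⊆ s) (hd : S.card ≤ d) : chi S ∈ W s d :=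
  Submodule.subset_span ⟨S, h, hd, rfl⟩

lemma W_flp {a : ι} {s : Finset ι} {d : ℕ} (h : a ∉ s) {f : (ι → Bool) → ℝ} (hf : f ∈ W s d) :
    ∀ ω, f (flp a ω) = f ω := by
  induction hf using Submodule.span_induction with
  | mem f hf =>
    obtain ⟨S, hS, -, rfl⟩ := hf
    exact fun ω => chi_flp (fun ha => h (hS ha)) ω
  | zero => intro ω; rfl
  | add f g _ _ hf hg => intro ω; simp [hf ω, hg ω]
  | smul c f _ hf => intro ω; simp [hf ω]

lemma W_mono {s t : Finset ι} {d e : ℕ} (hst : s ⊆ t) (hde : d ≤ e) : W s d ≤ W t e := by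
  apply Submodule.span_mono
  rintro f ⟨S, hS, hd, rfl⟩
  exact ⟨S, hS.trans hst, hd.trans hde, rfl⟩

lemma W_insert_zero {a : ι} {s : Finset ι} : W (insert a s) 0 ≤ W s 0 := by
  apply Submodule.span_le.2
  rintro f ⟨S, _, hd, rfl⟩
  have : S = ∅ := by simpa using hd
  subst this
  exact chi_mem (by simp) (by simp)

lemma W_insert {a : ι} {s : Finset ι} (_ha : a ∉ s) {d : ℕ} {f : (ι → Bool) → ℝ}
    (hf : f ∈ W (insert a s) (d + 1)) :
    ∃ g ∈ W s d, ∃ h ∈ W s (d + 1), ∀ ω, f ω = h ω + sg (ω a) * g ω := by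
  induction hf using Submodule.span_induction with
  | mem f hf =>
    obtain ⟨S, hS, hd, rfl⟩ := hf
    by_cases haS : a ∈ S
    · refine ⟨chi (S.erase a), chi_mem ?_ ?_, 0, Submodule.zero_mem _, ?_⟩
      · intro i hi
        rcases Finset.mem_insert.1 (hS (Finset.mem_of_mem_erase hi)) with h | h
        · exact absurd h (Finset.ne_of_mem_erase hi)
        · exact h
      · rw [Finset.card_erase_of_mem haS]; omega
      · intro ω; rw [chi_erase haS]; simp
    · refine ⟨0, Submodule.zero_mem _, chi S, chi_mem ?_ hd, ?_⟩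
      · intro i hi
        rcases Finset.mem_insert.1 (hS hi) with h | h
        · exact absurd (h ▸ hi) haS
        · exact h
      · intro ω; simp
  | zero => exact ⟨0, Submodule.zero_mem _, 0, Submodule.zero_mem _, fun ω => by simp⟩
  | add f g _ _ hf hg =>
    obtain ⟨g1, hg1, h1, hh1, e1⟩ := hf
    obtain ⟨g2, hg2, h2, hh2, e2⟩ := hg
    refine ⟨g1 + g2, Submodule.add_mem _ hg1 hg2, h1 + h2, Submodule.add_mem _ hh1 hh2, ?_⟩
    intro ω
    simp only [Pi.add_apply, e1 ω, e2 ω]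
    ring
  | smul c f _ hf =>
    obtain ⟨g1, hg1, h1, hh1, e1⟩ := hf
    refine ⟨c • g1, Submodule.smul_mem _ _ hg1, c • h1, Submodule.smul_mem _ _ hh1, ?_⟩
    intro ω
    simp only [Pi.smul_apply, smul_eq_mul, e1 ω]
    ring

/-- Bonami's inequality, from exponent 2 to exponent 4 -/
theorem bonami (s : Finset ι) : ∀ (d : ℕ) (f : (ι → Bool) → ℝ), f ∈ W s d →
    EE (fun ω => f ω ^ 4) ≤ 9 ^ d * (EE (fun ω => f ω ^ 2)) ^ 2 := by
  induction s using Finset.induction_on with
  | empty =>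
    intro d f hf
    have hc : ∃ c : ℝ, f = fun _ => c := by
      induction hf using Submodule.span_induction with
      | mem f hf =>
        obtain ⟨S, hS, -, rfl⟩ := hf
        have : S = ∅ := Finset.subset_empty.1 hS
        subst this
        exact ⟨1, chi_empty⟩
      | zero => exact ⟨0, rfl⟩
      | add f g _ _ hf hg =>
        obtain ⟨c, rfl⟩ := hf
        obtain ⟨c', rfl⟩ := hg
        exact ⟨c + c', rfl⟩
      | smul c f _ hf =>
        obtain ⟨c', rfl⟩ := hf
        exact ⟨c * c', rfl⟩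
    obtain ⟨c, rfl⟩ := hc
    simp only [EE_const]
    have h9 : (1 : ℝ) ≤ 9 ^ d := one_le_pow₀ (by norm_num)
    nlinarith [sq_nonneg (c ^ 2)]
  | insert a s ha ih =>
    intro d f hf
    cases d with
    | zero => exact ih 0 f (W_insert_zero hf)
    | succ d =>
      obtain ⟨g, hg, h, hh, e⟩ := W_insert ha hf
      have ig := ih d g hg
      have ihh := ih (d + 1) h hh
      have fg := W_flp ha hg
      have fh := W_flp ha hh
      set G := EE (fun ω => g ω ^ 2) with hG
      set H := EE (fun ω => h ω ^ 2) with hH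
      have hG0 : 0 ≤ G := EE_nonneg fun ω => sq_nonneg _
      have hH0 : 0 ≤ H := EE_nonneg fun ω => sq_nonneg _
      have e4 : EE (fun ω => f ω ^ 4) = EE (fun ω => h ω ^ 4) +
          6 * EE (fun ω => h ω ^ 2 * g ω ^ 2) + EE (fun ω => g ω ^ 4) := by
        have : (fun ω => f ω ^ 4) = fun ω => ((h ω ^ 4 + 6 * (h ω ^ 2 * g ω ^ 2)) + g ω ^ 4) +
            sg (ω a) * (4 * h ω ^ 3 * g ω + 4 * h ω * g ω ^ 3) := by
          funext ω
          rw [e ω]
          have hx : sg (ω a) ^ 2 = 1 := sg_sq _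
          have hx3 : sg (ω a) ^ 3 = sg (ω a) := by
            calc sg (ω a) ^ 3 = sg (ω a) ^ 2 * sg (ω a) := by ring
              _ = _ := by rw [hx, one_mul]
          have hx4 : sg (ω a) ^ 4 = 1 := by
            calc sg (ω a) ^ 4 = (sg (ω a) ^ 2) ^ 2 := by ring
              _ = _ := by rw [hx, one_pow]
          calc (h ω + sg (ω a) * g ω) ^ 4 = h ω ^ 4 + 4 * h ω ^ 3 * (sg (ω a) * g ω) +
                6 * h ω ^ 2 * (sg (ω a) ^ 2 * g ω ^ 2) + 4 * h ω * (sg (ω a) ^ 3 * g ω ^ 3) +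
                sg (ω a) ^ 4 * g ω ^ 4 := by ring
            _ = _ := by rw [hx, hx3, hx4]; ring
        rw [this, EE_add, EE_add, EE_add, EE_smul, EE_odd a, add_zero]
        intro ω
        rw [fg, fh]
      have e2 : EE (fun ω => f ω ^ 2) = H + G := by
        have : (fun ω => f ω ^ 2) = fun ω => (h ω ^ 2 + g ω ^ 2) +
            sg (ω a) * (2 * h ω * g ω) := by
          funext ω
          rw [e ω]
          have hx : sg (ω a) ^ 2 = 1 := sg_sq _
          calc (h ω + sg (ω a) * g ω) ^ 2 = h ω ^ 2 + 2 * h ω * (sg (ω a) * g ω) +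
                sg (ω a) ^ 2 * g ω ^ 2 := by ring
            _ = _ := by rw [hx]; ring
        rw [this, EE_add, EE_add, EE_odd a, add_zero]
        intro ω
        rw [fg, fh]
      have hcs := EE_cs (fun ω => h ω ^ 2) (fun ω => g ω ^ 2)
      have hcs' : (EE (fun ω => h ω ^ 2 * g ω ^ 2)) ^ 2 ≤ (3 * 9 ^ d * H * G) ^ 2 := by
        refine hcs.trans ?_
        have e1 : EE (fun ω => (h ω ^ 2) ^ 2) = EE (fun ω => h ω ^ 4) := by
          congr 1; funext ω; ring
        have e2 : EE (fun ω => (g ω ^ 2) ^ 2) = EE (fun ω => g ω ^ 4) := by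
          congr 1; funext ω; ring
        rw [e1, e2]
        calc EE (fun ω => h ω ^ 4) * EE (fun ω => g ω ^ 4)
            ≤ (9 ^ (d + 1) * H ^ 2) * (9 ^ d * G ^ 2) := by
              apply mul_le_mul ihh ig
              · exact EE_nonneg fun ω => by positivity
              · positivity
          _ = (3 * 9 ^ d * H * G) ^ 2 := by ring
      have hcs2 : EE (fun ω => h ω ^ 2 * g ω ^ 2) ≤ 3 * 9 ^ d * H * G := by
        apply le_of_sq_le_sq hcs'
        positivity
      rw [e4, e2]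
      have h9 : (0 : ℝ) < 9 ^ d := by positivity
      have : (9 : ℝ) ^ (d + 1) * (H + G) ^ 2 = 9 ^ (d + 1) * H ^ 2 + 6 * (3 * 9 ^ d * H * G) +
          9 ^ (d + 1) * G ^ 2 := by ring
      rw [this]
      have h3 : (9 : ℝ) ^ d * G ^ 2 ≤ 9 ^ (d + 1) * G ^ 2 := by
        apply mul_le_mul_of_nonneg_right _ (sq_nonneg _)
        exact pow_le_pow_right₀ (by norm_num) (by omega)
      linarith

end Pool.Agent.helper42.PEL
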