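import Pool.Agent.helper42.PEL.Pairs

/-!
# Existence of good samples

Union bound over a net of matrices, for a family of blocks.
-/

set_option autoImplicit false
set_option linter.unusedSectionVars false

namespace Pool.Agent.helper42.PEL

open Finset

variable {τ A : Type} [Fintype τ] [DecidableEq τ] [Fintype A] [DecidableEq A]

/-- net of matrices supported in `B × B` -/
noncomputable def netM (B : Finset A) (Φ : B × B → Fin (4 * B.card ^ 2 + 1)) (a b : A) : ℝ :=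
  if h : a ∈ B ∧ b ∈ B then
    (((Φ (⟨a, h.1⟩, ⟨b, h.2⟩) : ℕ) : ℝ) - 2 * (B.card : ℝ) ^ 2) / (2 * (B.card : ℝ) ^ 2) else 0

lemma exists_net (B : Finset A) (hB : 1 ≤ B.card) (M : A → A → ℝ)
    (hs : ∀ a b, (a ∉ B ∨ b ∉ B) → M a b = 0) (h1 : ∀ a b, |M a b| ≤ 1) :
    ∃ Φ : B × B → Fin (4 * B.card ^ 2 + 1),
      ∀ a b, |M a b - netM B Φ a b| ≤ if a ∈ B ∧ b ∈ B then 1 / (4 * (B.card : ℝ) ^ 2) else 0 := by
  have hc : (1 : ℝ) ≤ (B.card : ℝ) := by exact_mod_cast hB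
  have hc2 : (0 : ℝ) < 2 * (B.card : ℝ) ^ 2 := by positivity
  set N : ℕ := 2 * B.card ^ 2 with hN
  have hNr : ((N : ℤ) : ℝ) = 2 * (B.card : ℝ) ^ 2 := by rw [hN]; push_cast; ring
  have hr : ∀ x : ℝ, |x| ≤ 1 → -(N : ℤ) ≤ round (2 * (B.card : ℝ) ^ 2 * x) ∧
      round (2 * (B.card : ℝ) ^ 2 * x) ≤ (N : ℤ) := by
    intro x hx
    rw [abs_le] at hx
    have h2 := abs_sub_round (2 * (B.card : ℝ) ^ 2 * x)
    rw [abs_le] at h2
    have h3 : 2 * (B.card : ℝ) ^ 2 * x ≤ 2 * (B.card : ℝ) ^ 2 := by nlinarith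
    have h4 : -(2 * (B.card : ℝ) ^ 2) ≤ 2 * (B.card : ℝ) ^ 2 * x := by nlinarith
    constructor
    · have : (-(N : ℤ) : ℝ) - 1 < (round (2 * (B.card : ℝ) ^ 2 * x) : ℝ) := by
        rw [hNr]; linarith [h2.1, h2.2]
      have h5 : (-(N : ℤ) - 1 : ℤ) < round (2 * (B.card : ℝ) ^ 2 * x) := by exact_mod_cast this
      omega
    · have : (round (2 * (B.card : ℝ) ^ 2 * x) : ℝ) < ((N : ℤ) : ℝ) + 1 := by
        rw [hNr]; linarith [h2.1, h2.2]
      have h5 : round (2 * (B.card : ℝ) ^ 2 * x) < ((N : ℤ) + 1 : ℤ) := by exact_mod_cast this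
      omega
  refine ⟨fun k => ⟨(round (2 * (B.card : ℝ) ^ 2 * M k.1 k.2) + N).toNat, ?_⟩, ?_⟩
  · have := hr _ (h1 k.1 k.2)
    rw [show 4 * B.card ^ 2 = 2 * N by rw [hN]; ring]
    omega
  · intro a b
    unfold netM
    by_cases h : a ∈ B ∧ b ∈ B
    · rw [dif_pos h, if_pos h]
      have h2 := hr _ (h1 a b)
      have h3 : (((round (2 * (B.card : ℝ) ^ 2 * M a b) + N).toNat : ℕ) : ℝ) =
          (round (2 * (B.card : ℝ) ^ 2 * M a b) : ℝ) + 2 * (B.card : ℝ) ^ 2 := by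
        have h4 : (((round (2 * (B.card : ℝ) ^ 2 * M a b) + N).toNat : ℕ) : ℤ) =
            round (2 * (B.card : ℝ) ^ 2 * M a b) + N := Int.toNat_of_nonneg (by omega)
        have h5 : ((((round (2 * (B.card : ℝ) ^ 2 * M a b) + N).toNat : ℕ) : ℤ) : ℝ) =
            ((round (2 * (B.card : ℝ) ^ 2 * M a b) + N : ℤ) : ℝ) := by rw [h4]
        rw [Int.cast_natCast] at h5
        rw [h5]
        push_cast
        rw [hN]
        push_cast
        ring
      simp only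
      rw [h3, add_sub_cancel_right]
      have h6 := abs_sub_round (2 * (B.card : ℝ) ^ 2 * M a b)
      have h7 : M a b - (round (2 * (B.card : ℝ) ^ 2 * M a b) : ℝ) / (2 * (B.card : ℝ) ^ 2) =
          (2 * (B.card : ℝ) ^ 2 * M a b - round (2 * (B.card : ℝ) ^ 2 * M a b)) /
            (2 * (B.card : ℝ) ^ 2) := by
        field_simp
      rw [h7, abs_div, abs_of_pos hc2, div_le_div_iff₀ hc2 (by positivity)]
      nlinarith
    · rw [dif_neg h, if_neg h, hs a b (by tauto)]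
      simp

lemma bf_add (M M' : A → A → ℝ) (s t : τ) (ω : τ × A → Bool) :
    bf (fun a b => M a b + M' a b) s t ω = bf M s t ω + bf M' s t ω := by
  unfold bf
  have e1 : ∑ a, ∑ b, (M a b + M' a b) * xs ω s a * xs ω t b =
      ∑ a, ∑ b, M a b * xs ω s a * xs ω t b + ∑ a, ∑ b, M' a b * xs ω s a * xs ω t b := by
    rw [← Finset.sum_add_distrib]
    apply Finset.sum_congr rfl
    intro a _
    rw [← Finset.sum_add_distrib]
    apply Finset.sum_congr rfl
    intro b _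
    ring
  rw [e1]
  split_ifs
  · rw [Finset.sum_add_distrib]; ring
  · ring

lemma bf_smul (c : ℝ) (M : A → A → ℝ) (s t : τ) (ω : τ × A → Bool) :
    bf (fun a b => c * M a b) s t ω = c * bf M s t ω := by
  unfold bf
  rw [mul_sub, Finset.mul_sum]
  congr 1
  · apply Finset.sum_congr rfl
    intro a _
    rw [Finset.mul_sum]
    apply Finset.sum_congr rfl
    intro b _
    ring
  · split_ifs
    · rw [Finset.mul_sum]
    · ring

lemma bf_abs_le (M : A → A → ℝ) (s t : τ) (ω : τ × A → Bool) :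
    |bf M s t ω| ≤ (∑ a, ∑ b, |M a b|) + ∑ a, |M a a| := by
  unfold bf
  have h1 : |∑ a, ∑ b, M a b * xs ω s a * xs ω t b| ≤ ∑ a, ∑ b, |M a b| := by
    refine (Finset.abs_sum_le_sum_abs _ _).trans (Finset.sum_le_sum fun a _ => ?_)
    refine (Finset.abs_sum_le_sum_abs _ _).trans (Finset.sum_le_sum fun b _ => ?_)
    unfold xs
    rw [abs_mul, abs_mul, sg_abs, sg_abs, mul_one, mul_one]
  have h2 : |(if s = t then ∑ a, M a a else 0)| ≤ ∑ a, |M a a| := by
    split_ifs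
    · exact Finset.abs_sum_le_sum_abs _ _
    · rw [abs_zero]; exact Finset.sum_nonneg fun a _ => abs_nonneg _
  exact (abs_sub _ _).trans (add_le_add h1 h2)

/-- from the net to all matrices of Hilbert-Schmidt norm one -/
lemma from_net (B : Finset A) (hB : 1 ≤ B.card) {m : ℝ} (hm : 1 ≤ m) (ω : τ × A → Bool)
    (h : ∀ Φ : B × B → Fin (4 * B.card ^ 2 + 1), 2 * ∑ a, ∑ b, netM B Φ a b ^ 2 ≤ 6 →
      ∃ Ex : Finset τ, Ex.card ≤ 2 * B.card ^ 3 ∧ ∀ s t, s ∉ Ex → t ∉ Ex →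
        |bf (netM B Φ) s t ω| ≤ m / 2)
    (M : A → A → ℝ) (hs : ∀ a b, (a ∉ B ∨ b ∉ B) → M a b = 0) (h1 : ∑ a, ∑ b, M a b ^ 2 ≤ 1) :
    ∃ Ex : Finset τ, Ex.card ≤ 2 * B.card ^ 3 ∧ ∀ s t, s ∉ Ex → t ∉ Ex → |bf M s t ω| ≤ m := by
  have hc : (1 : ℝ) ≤ (B.card : ℝ) := by exact_mod_cast hB
  have hab : ∀ a b, |M a b| ≤ 1 := by
    intro a b
    have h2 : M a b ^ 2 ≤ ∑ b, M a b ^ 2 :=
      Finset.single_le_sum (f := fun b => M a b ^ 2) (fun b _ => sq_nonneg _) (Finset.mem_univ b)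
    have h3 : ∑ b, M a b ^ 2 ≤ ∑ a, ∑ b, M a b ^ 2 :=
      Finset.single_le_sum (f := fun a => ∑ b, M a b ^ 2)
        (fun a _ => Finset.sum_nonneg fun b _ => sq_nonneg _) (Finset.mem_univ a)
    have h4 : M a b ^ 2 ≤ 1 := h2.trans (h3.trans h1)
    exact (sq_le_one_iff_abs_le_one _).1 h4
  obtain ⟨Φ, hΦ⟩ := exists_net B hB M hs hab
  set D : A → A → ℝ := fun a b => M a b - netM B Φ a b with hD
  have hDsum : ∑ a, ∑ b, |D a b| ≤ 1 / 4 := by
    calc ∑ a, ∑ b, |D a b| ≤ ∑ a, ∑ b, (if a ∈ B ∧ b ∈ B then 1 / (4 * (B.card : ℝ) ^ 2) else 0) :=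
          Finset.sum_le_sum fun a _ => Finset.sum_le_sum fun b _ => hΦ a b
      _ = ∑ a ∈ B, ∑ b ∈ B, 1 / (4 * (B.card : ℝ) ^ 2) := by
          rw [← Finset.sum_filter_add_sum_filter_not Finset.univ (fun a => a ∈ B)]
          have e1 : ∑ a ∈ Finset.univ.filter (fun a => ¬ a ∈ B),
              ∑ b, (if a ∈ B ∧ b ∈ B then 1 / (4 * (B.card : ℝ) ^ 2) else 0) = 0 := by
            apply Finset.sum_eq_zero
            intro a ha
            apply Finset.sum_eq_zero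
            intro b _
            rw [if_neg]
            exact fun h => (Finset.mem_filter.1 ha).2 h.1
          rw [e1, add_zero]
          have e2 : Finset.univ.filter (fun a => a ∈ B) = B := by ext; simp
          rw [e2]
          apply Finset.sum_congr rfl
          intro a ha
          have e3 : ∀ b, (if a ∈ B ∧ b ∈ B then 1 / (4 * (B.card : ℝ) ^ 2) else 0) =
              if b ∈ B then 1 / (4 * (B.card : ℝ) ^ 2) else 0 := by
            intro b; simp [ha]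
          simp only [e3]
          rw [← Finset.sum_filter, e2]
      _ = 1 / 4 := by
          simp only [Finset.sum_const, nsmul_eq_mul]
          field_simp
  have hDdiag : ∑ a, |D a a| ≤ 1 / 4 := by
    refine le_trans (Finset.sum_le_sum fun a _ => ?_) hDsum
    exact Finset.single_le_sum (f := fun b => |D a b|) (fun b _ => abs_nonneg _) (Finset.mem_univ a)
  have hDle : ∀ a b, |D a b| ≤ 1 := by
    intro a b
    refine (hΦ a b).trans ?_
    split_ifs
    · rw [div_le_one (by positivity)]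
      nlinarith
    · norm_num
  have hDsq : ∑ a, ∑ b, D a b ^ 2 ≤ 1 / 4 := by
    refine le_trans (Finset.sum_le_sum fun a _ => Finset.sum_le_sum fun b _ => ?_) hDsum
    rw [← sq_abs]
    have := hDle a b
    nlinarith [abs_nonneg (D a b)]
  have hnet : 2 * ∑ a, ∑ b, netM B Φ a b ^ 2 ≤ 6 := by
    have h2 : ∑ a, ∑ b, netM B Φ a b ^ 2 ≤ ∑ a, ∑ b, (2 * M a b ^ 2 + 2 * D a b ^ 2) := by
      apply Finset.sum_le_sum fun a _ => Finset.sum_le_sum fun b _ => ?_
      have : netM B Φ a b = M a b - D a b := by simp [hD]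
      rw [this]
      nlinarith [sq_nonneg (M a b + D a b)]
    have h3 : ∑ a, ∑ b, (2 * M a b ^ 2 + 2 * D a b ^ 2) =
        2 * ∑ a, ∑ b, M a b ^ 2 + 2 * ∑ a, ∑ b, D a b ^ 2 := by
      rw [Finset.mul_sum, Finset.mul_sum, ← Finset.sum_add_distrib]
      apply Finset.sum_congr rfl
      intro a _
      rw [Finset.mul_sum, Finset.mul_sum, ← Finset.sum_add_distrib]
    linarith
  obtain ⟨Ex, hEx, hgood⟩ := h Φ hnet
  refine ⟨Ex, hEx, fun s t hs' ht => ?_⟩
  have e : M = fun a b => netM B Φ a b + D a b := by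
    funext a b; simp [hD]
  have h3 := hgood s t hs' ht
  have h4 := bf_abs_le D s t ω
  rw [e, bf_add]
  refine (abs_add_le _ _).trans ?_
  linarith

lemma tail_Id {m p : ℝ}
    (tail : ∀ M : A → A → ℝ, 2 * ∑ a, ∑ b, M a b ^ 2 ≤ 6 → ∀ s t : τ,
      EE (ind fun ω : τ × A → Bool => m / 2 < |bf M s t ω|) ≤ p)
    {Λ : Type} [Fintype Λ] (Id : Λ → A → A → ℝ) (hIdsq : ∀ l, 2 * ∑ a, ∑ b, Id l a b ^ 2 ≤ 6)
    (hp : 4 * (Fintype.card Λ : ℝ) * (Fintype.card τ : ℝ) ^ 2 * p ≤ 1) :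
    EE (ind fun ω : τ × A → Bool => ∃ k ∈ (Finset.univ : Finset (Λ × (τ × τ))),
      m / 2 < |bf (Id k.1) k.2.1 k.2.2 ω|) ≤ 1 / 4 := by
  refine (ind_exists_le _ _).trans ?_
  refine (Finset.sum_le_sum fun k _ => tail (Id k.1) (hIdsq k.1) k.2.1 k.2.2).trans ?_
  rw [Finset.sum_const, Finset.card_univ, Fintype.card_prod, Fintype.card_prod, nsmul_eq_mul]
  push_cast
  linarith

lemma tail_cov (hT : 8 * (Fintype.card A : ℝ) ^ 4 ≤ (Fintype.card τ : ℝ))
    (hn : (1 : ℝ) ≤ (Fintype.card A : ℝ)) :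
    EE (ind fun ω : τ × A → Bool => ∃ k ∈ (Finset.univ : Finset (A × A)).filter
      (fun k => k.1 ≠ k.2), (Fintype.card τ : ℝ) / Fintype.card A <
        |∑ t, xs ω t k.1 * xs ω t k.2|) ≤ 1 / 4 := by
  have hTpos : (0 : ℝ) < (Fintype.card τ : ℝ) := by
    have : (0 : ℝ) < 8 * (Fintype.card A : ℝ) ^ 4 := by positivity
    linarith
  refine (ind_exists_le _ _).trans ?_
  have hk : ∀ k ∈ (Finset.univ : Finset (A × A)).filter (fun k => k.1 ≠ k.2),
      EE (ind fun ω : τ × A → Bool => (Fintype.card τ : ℝ) / Fintype.card A <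
        |∑ t, xs ω t k.1 * xs ω t k.2|) ≤ 2 * (Fintype.card τ : ℝ) /
          ((Fintype.card τ : ℝ) / Fintype.card A) ^ (2 ^ (0 + 1)) := by
    intro k hk
    have hkne : k.1 ≠ k.2 := (Finset.mem_filter.1 hk).2
    apply markov _ (by positivity) 0
    have e : ∀ ω : τ × A → Bool, ∑ t, xs ω t k.1 * xs ω t k.2 =
        ∑ t : τ, (1 : ℝ) * chi (fq t t k) ω := by
      intro ω
      apply Finset.sum_congr rfl
      intro t _
      unfold fq xs
      rw [← chi_mul, chi_singleton, chi_singleton, one_mul]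
    have h2 := sq_walsh (ι := τ × A) (fun _ : τ => (1 : ℝ)) (fun t => fq t t k) id
      (fun _ => rfl) (by
        intro s t _ _ hS
        left
        have hS : fq s s k = fq t t k := hS
        rw [fq_eq_same hkne, fq_eq_same hkne] at hS
        have m1 : (t, k.1) ∈ ({(s, k.1), (s, k.2)} : Finset (τ × A)) := by rw [hS]; simp
        simp only [Finset.mem_insert, Finset.mem_singleton, Prod.mk.injEq] at m1
        rcases m1 with m1 | m1
        · exact m1.1
        · exact m1.1)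
    simp only [one_pow, Finset.sum_const, Finset.card_univ, nsmul_eq_mul, mul_one] at h2
    simp only [zero_add, pow_one]
    refine le_trans (le_of_eq ?_) h2
    congr 1
    funext ω
    rw [e]
  refine (Finset.sum_le_sum hk).trans ?_
  rw [Finset.sum_const, nsmul_eq_mul]
  have hcard : (((Finset.univ : Finset (A × A)).filter (fun k => k.1 ≠ k.2)).card : ℝ) ≤
      (Fintype.card A : ℝ) ^ 2 := by
    have : ((Finset.univ : Finset (A × A)).filter (fun k => k.1 ≠ k.2)).card ≤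
        Fintype.card A ^ 2 := by
      refine (Finset.card_filter_le _ _).trans ?_
      rw [Finset.card_univ, Fintype.card_prod, sq]
    exact_mod_cast this
  have hval : 2 * (Fintype.card τ : ℝ) / ((Fintype.card τ : ℝ) / Fintype.card A) ^ (2 ^ (0 + 1)) =
      2 * (Fintype.card A : ℝ) ^ 2 / Fintype.card τ := by
    have hA0 : (Fintype.card A : ℝ) ≠ 0 := by positivity
    simp only [zero_add, pow_one]
    field_simp
  rw [hval]
  calc _ ≤ (Fintype.card A : ℝ) ^ 2 * (2 * (Fintype.card A : ℝ) ^ 2 / Fintype.card τ) :=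
        mul_le_mul_of_nonneg_right hcard (by positivity)
    _ = 2 * (Fintype.card A : ℝ) ^ 4 / Fintype.card τ := by ring
    _ ≤ 1 / 4 := by
        rw [div_le_div_iff₀ hTpos (by norm_num)]
        linarith

lemma net_num (b c : ℕ) (hb1 : 1 ≤ b) (hc : 1 ≤ c) (hB1 : 4 * b ^ 2 + 1 ≤ 2 ^ b)
    (hB2 : 4 * c ≤ 2 ^ b) :
    (((4 * b ^ 2 + 1) ^ (b * b) : ℕ) : ℝ) * (1 / 4 : ℝ) ^ (b ^ 3) ≤ 1 / (4 * (c : ℝ)) := by
  have h1 : ((4 * b ^ 2 + 1) ^ (b * b) : ℕ) ≤ 2 ^ (b ^ 3) := by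
    calc (4 * b ^ 2 + 1) ^ (b * b) ≤ (2 ^ b) ^ (b * b) := Nat.pow_le_pow_left hB1 _
      _ = 2 ^ (b ^ 3) := by rw [← pow_mul]; congr 1; ring
  have h1r : (((4 * b ^ 2 + 1) ^ (b * b) : ℕ) : ℝ) ≤ 2 ^ (b ^ 3) := by exact_mod_cast h1
  have h2 : 4 * c ≤ 2 ^ (b ^ 3) := by
    refine hB2.trans (Nat.pow_le_pow_right (by norm_num) ?_)
    calc b = b ^ 1 := (pow_one b).symm
      _ ≤ b ^ 3 := Nat.pow_le_pow_right hb1 (by norm_num)
  have h2r : 4 * (c : ℝ) ≤ 2 ^ (b ^ 3) := by exact_mod_cast h2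
  have hcr : (1 : ℝ) ≤ (c : ℝ) := by exact_mod_cast hc
  calc (((4 * b ^ 2 + 1) ^ (b * b) : ℕ) : ℝ) * (1 / 4 : ℝ) ^ (b ^ 3)
      ≤ 2 ^ (b ^ 3) * (1 / 4 : ℝ) ^ (b ^ 3) := mul_le_mul_of_nonneg_right h1r (by positivity)
    _ = (1 / 2 : ℝ) ^ (b ^ 3) := by rw [← mul_pow]; norm_num
    _ = 1 / 2 ^ (b ^ 3) := by rw [one_div_pow]
    _ ≤ 1 / (4 * (c : ℝ)) := by
        apply one_div_le_one_div_of_le (by positivity) h2r

lemma tail_net {m p : ℝ} (hp0 : 0 ≤ p)
    (tail : ∀ M : A → A → ℝ, 2 * ∑ a, ∑ b, M a b ^ 2 ≤ 6 → ∀ s t : τ,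
      EE (ind fun ω : τ × A → Bool => m / 2 < |bf M s t ω|) ≤ p)
    (hTp : (Fintype.card τ : ℝ) ^ 2 * p ≤ 1 / 4) (B : Finset A) (hb1 : 1 ≤ B.card) (c : ℕ)
    (hc : 1 ≤ c)
    (hB1 : 4 * B.card ^ 2 + 1 ≤ 2 ^ B.card) (hB2 : 4 * c ≤ 2 ^ B.card) :
    EE (ind fun ω : τ × A → Bool => ∃ Φ ∈ (Finset.univ :
        Finset (B × B → Fin (4 * B.card ^ 2 + 1))).filter
          (fun Φ => 2 * ∑ a, ∑ b, netM B Φ a b ^ 2 ≤ 6),
        ∃ 𝓕 ∈ Finset.powersetCard (B.card ^ 3) (Finset.univ : Finset (τ × τ)),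
          badFam (netM B Φ) (m / 2) 𝓕 ω) ≤ 1 / (4 * (c : ℝ)) := by
  refine (ind_exists_le _ _).trans ?_
  have hk : ∀ Φ ∈ (Finset.univ : Finset (B × B → Fin (4 * B.card ^ 2 + 1))).filter
      (fun Φ => 2 * ∑ a, ∑ b, netM B Φ a b ^ 2 ≤ 6),
      EE (ind fun ω : τ × A → Bool => ∃ 𝓕 ∈ Finset.powersetCard (B.card ^ 3)
        (Finset.univ : Finset (τ × τ)), badFam (netM B Φ) (m / 2) 𝓕 ω) ≤
        (1 / 4 : ℝ) ^ (B.card ^ 3) := by
    intro Φ hΦ
    refine (badFam_prob_exists _ hp0 _ (tail _ (Finset.mem_filter.1 hΦ).2)).trans ?_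
    exact pow_le_pow_left₀ (by positivity) hTp _
  refine (Finset.sum_le_sum hk).trans ?_
  refine (Finset.sum_le_sum_of_subset_of_nonneg (Finset.filter_subset _ _)
    fun k _ _ => by positivity).trans ?_
  rw [Finset.sum_const, Finset.card_univ, Fintype.card_fun, Fintype.card_fin,
    Fintype.card_prod, Fintype.card_coe, nsmul_eq_mul]
  exact net_num _ _ hb1 hc hB1 hB2

/-- existence of the samples, abstract form -/
theorem core {Λ : Type} [Fintype Λ] [Nonempty Λ] (B : Λ → Finset A) {m : ℝ} (hm : 1 ≤ m) {p : ℝ}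
    (hp0 : 0 ≤ p)
    (tail : ∀ M : A → A → ℝ, 2 * ∑ a, ∑ b, M a b ^ 2 ≤ 6 → ∀ s t : τ,
      EE (ind fun ω : τ × A → Bool => m / 2 < |bf M s t ω|) ≤ p)
    (hT : 8 * (Fintype.card A) ^ 4 ≤ Fintype.card τ) (hA : 1 ≤ Fintype.card A)
    (hp : 4 * (Fintype.card Λ : ℝ) * (Fintype.card τ : ℝ) ^ 2 * p ≤ 1)
    (hB1 : ∀ l, 4 * (B l).card ^ 2 + 1 ≤ 2 ^ (B l).card)
    (hB2 : ∀ l, 4 * Fintype.card Λ ≤ 2 ^ (B l).card) :
    ∃ ω : τ × A → Bool,
      (∀ l s t, s ≠ t → |∑ a ∈ B l, xs ω s a * xs ω t a| ≤ m / 2 * Real.sqrt ((B l).card : ℝ)) ∧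
      (∀ a b, a ≠ b → |∑ t, xs ω t a * xs ω t b| ≤ (Fintype.card τ : ℝ) / Fintype.card A) ∧
      (∀ l (M : A → A → ℝ), (∀ a b, (a ∉ B l ∨ b ∉ B l) → M a b = 0) →
        ∃ Ex : Finset τ, Ex.card ≤ 2 * (B l).card ^ 3 ∧ ∀ s t, s ∉ Ex → t ∉ Ex →
          |bf M s t ω| ≤ m * Real.sqrt (∑ a, ∑ b, M a b ^ 2)) := by
  classical
  have hΛ : (1 : ℝ) ≤ (Fintype.card Λ : ℝ) := by exact_mod_cast Fintype.card_pos
  have hn : (1 : ℝ) ≤ (Fintype.card A : ℝ) := by exact_mod_cast hA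
  have hTr : 8 * (Fintype.card A : ℝ) ^ 4 ≤ (Fintype.card τ : ℝ) := by exact_mod_cast hT
  have hTp : (Fintype.card τ : ℝ) ^ 2 * p ≤ 1 / 4 := by
    have h0 : 0 ≤ (Fintype.card τ : ℝ) ^ 2 * p := by positivity
    nlinarith
  have hBpos : ∀ l, 1 ≤ (B l).card := by
    intro l
    by_contra hc
    have h0 : (B l).card = 0 := by omega
    have h2 := hB2 l
    rw [h0] at h2
    have : 1 ≤ Fintype.card Λ := Fintype.card_pos
    omega
  -- normalised identity of a block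
  set Id : Λ → A → A → ℝ := fun l a b =>
    (Real.sqrt ((B l).card : ℝ))⁻¹ * (if a = b ∧ a ∈ B l then 1 else 0) with hId
  have hIdsq : ∀ l, 2 * ∑ a, ∑ b, Id l a b ^ 2 ≤ 6 := by
    intro l
    have h1 : ∀ a b, Id l a b ^ 2 = if a = b then (if a ∈ B l then ((B l).card : ℝ)⁻¹ else 0) else 0 := by
      intro a b
      simp only [hId]
      by_cases hab : a = b
      · by_cases haB : a ∈ B l
        · rw [if_pos ⟨hab, haB⟩, if_pos hab, if_pos haB, mul_one, inv_pow, Real.sq_sqrt (by positivity)]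
        · rw [if_neg (by tauto), if_pos hab, if_neg haB]; ring
      · rw [if_neg (by tauto), if_neg hab]; ring
    have h2 : ∑ a, ∑ b, Id l a b ^ 2 = 1 := by
      simp only [h1]
      simp only [Finset.sum_ite_eq, Finset.mem_univ, if_true]
      rw [← Finset.sum_filter]
      have e2 : Finset.univ.filter (fun a => a ∈ B l) = B l := by ext; simp
      rw [e2, Finset.sum_const, nsmul_eq_mul]
      have : (0 : ℝ) < ((B l).card : ℝ) := by exact_mod_cast (hBpos l)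
      field_simp
    rw [h2]; norm_num
  -- the three bad events
  let P1 : (τ × A → Bool) → Prop := fun ω => ∃ k ∈ (Finset.univ : Finset (Λ × (τ × τ))),
    m / 2 < |bf (Id k.1) k.2.1 k.2.2 ω|
  let P2 : (τ × A → Bool) → Prop := fun ω => ∃ k ∈ (Finset.univ : Finset (A × A)).filter
    (fun k => k.1 ≠ k.2), (Fintype.card τ : ℝ) / Fintype.card A < |∑ t, xs ω t k.1 * xs ω t k.2|
  let P3' : Λ → (τ × A → Bool) → Prop := fun l ω => ∃ Φ ∈ (Finset.univ :
        Finset (B l × B l → Fin (4 * (B l).card ^ 2 + 1))).filter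
          (fun Φ => 2 * ∑ a, ∑ b, netM (B l) Φ a b ^ 2 ≤ 6),
        ∃ 𝓕 ∈ Finset.powersetCard ((B l).card ^ 3) (Finset.univ : Finset (τ × τ)),
          badFam (netM (B l) Φ) (m / 2) 𝓕 ω
  let P3 : (τ × A → Bool) → Prop := fun ω => ∃ l ∈ (Finset.univ : Finset Λ), P3' l ω
  have b1 : EE (ind P1) ≤ 1 / 4 := tail_Id tail Id hIdsq hp
  have b2 : EE (ind P2) ≤ 1 / 4 := tail_cov hTr hn
  have b3 : EE (ind P3) ≤ 1 / 4 := by
    refine (ind_exists_le _ P3').trans ?_
    have hl : ∀ l ∈ (Finset.univ : Finset Λ), EE (ind (P3' l)) ≤ 1 / (4 * (Fintype.card Λ : ℝ)) :=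
      fun l _ => tail_net hp0 tail hTp (B l) (hBpos l) (Fintype.card Λ) Fintype.card_pos (hB1 l)
        (hB2 l)
    refine (Finset.sum_le_sum hl).trans ?_
    rw [Finset.sum_const, Finset.card_univ, nsmul_eq_mul]
    apply le_of_eq
    field_simp
  have hlt : EE (ind fun ω => P1 ω ∨ (P2 ω ∨ P3 ω)) < 1 := by
    have h1 := ind_or_le P1 (fun ω => P2 ω ∨ P3 ω)
    have h2 := ind_or_le P2 P3
    linarith
  obtain ⟨ω, hω⟩ := exists_of_EE_lt hlt
  push Not at hω
  obtain ⟨n1, n2, n3⟩ := hω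
  refine ⟨ω, ?_, ?_, ?_⟩
  · intro l s t hst
    have h1 : |bf (Id l) s t ω| ≤ m / 2 := by
      by_contra hc
      exact n1 ⟨(l, (s, t)), Finset.mem_univ _, not_le.1 hc⟩
    have e : bf (Id l) s t ω = (Real.sqrt ((B l).card : ℝ))⁻¹ * ∑ a ∈ B l, xs ω s a * xs ω t a := by
      unfold bf
      rw [if_neg hst, sub_zero]
      have h3 : ∀ a, ∑ b, Id l a b * xs ω s a * xs ω t b =
          if a ∈ B l then (Real.sqrt ((B l).card : ℝ))⁻¹ * (xs ω s a * xs ω t a) else 0 := by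
        intro a
        rw [Finset.sum_eq_single a]
        · by_cases haB : a ∈ B l
          · have h5 : Id l a a = (Real.sqrt ((B l).card : ℝ))⁻¹ := by simp [hId, haB]
            rw [h5, if_pos haB]; ring
          · have h5 : Id l a a = 0 := by simp [hId, haB]
            rw [h5, if_neg haB]; ring
        · intro b _ hb
          simp only [hId]
          rw [if_neg (fun h => hb h.1.symm)]
          ring
        · intro h; exact absurd (Finset.mem_univ _) h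
      simp only [h3]
      rw [← Finset.sum_filter, Finset.mul_sum]
      have e2 : Finset.univ.filter (fun a => a ∈ B l) = B l := by ext; simp
      rw [e2]
    have hs : 0 < Real.sqrt ((B l).card : ℝ) := by
      apply Real.sqrt_pos.2
      exact_mod_cast (hBpos l)
    rw [e, abs_mul, abs_inv, abs_of_pos hs, inv_mul_le_iff₀ hs] at h1
    linarith
  · intro a b hab
    by_contra hc
    exact n2 ⟨(a, b), Finset.mem_filter.2 ⟨Finset.mem_univ _, hab⟩, not_le.1 hc⟩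
  · intro l M hM
    have hnet : ∀ M' : A → A → ℝ, (∀ a b, (a ∉ B l ∨ b ∉ B l) → M' a b = 0) →
        ∑ a, ∑ b, M' a b ^ 2 ≤ 1 → ∃ Ex : Finset τ, Ex.card ≤ 2 * (B l).card ^ 3 ∧
          ∀ s t, s ∉ Ex → t ∉ Ex → |bf M' s t ω| ≤ m := by
      apply from_net (B l) (hBpos l) hm ω
      intro Φ hΦ
      apply exc_of_no_fam
      intro hc
      exact n3 ⟨l, Finset.mem_univ _, Φ, Finset.mem_filter.2 ⟨Finset.mem_univ _, hΦ⟩, hc⟩
    set h2 := ∑ a, ∑ b, M a b ^ 2 with hh2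
    have h2nn : 0 ≤ h2 := Finset.sum_nonneg fun a _ => Finset.sum_nonneg fun b _ => sq_nonneg _
    by_cases hz : h2 = 0
    · have hM0 : ∀ a b, M a b = 0 := by
        intro a b
        have h3 : ∀ a, ∑ b, M a b ^ 2 = 0 := by
          intro a
          have := (Finset.sum_eq_zero_iff_of_nonneg
            (fun a _ => Finset.sum_nonneg fun b _ => sq_nonneg (M a b))).1 (hh2.symm.trans hz) a
            (Finset.mem_univ a)
          exact this
        have h4 := (Finset.sum_eq_zero_iff_of_nonneg (fun b _ => sq_nonneg (M a b))).1 (h3 a) b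
          (Finset.mem_univ b)
        exact pow_eq_zero_iff (two_ne_zero) |>.1 h4
      refine ⟨∅, by simp, fun s t _ _ => ?_⟩
      unfold bf
      simp only [hM0]
      simp [hz]
    · have hpos : 0 < h2 := lt_of_le_of_ne h2nn (Ne.symm hz)
      have hsq : 0 < Real.sqrt h2 := Real.sqrt_pos.2 hpos
      obtain ⟨Ex, hEx, hg⟩ := hnet (fun a b => (Real.sqrt h2)⁻¹ * M a b)
        (fun a b hab => by rw [hM a b hab, mul_zero]) (by
          have : ∑ a, ∑ b, ((Real.sqrt h2)⁻¹ * M a b) ^ 2 = (Real.sqrt h2)⁻¹ ^ 2 * h2 := by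
            rw [hh2, Finset.mul_sum]
            apply Finset.sum_congr rfl
            intro a _
            rw [Finset.mul_sum]
            apply Finset.sum_congr rfl
            intro b _
            rw [mul_pow]
          rw [this, inv_pow, Real.sq_sqrt h2nn, inv_mul_cancel₀ hz])
      refine ⟨Ex, hEx, fun s t hs ht => ?_⟩
      have h3 := hg s t hs ht
      rw [bf_smul, abs_mul, abs_inv, abs_of_pos hsq, inv_mul_le_iff₀ hsq] at h3
      linarith

end Pool.Agent.helper42.PEL
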