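import Pool.Agent.helper42.PEL.Bonami

/-!
# High moments, tails, and independence on the sign cube
-/

set_option autoImplicit false
set_option linter.unusedSectionVars false

namespace Pool.Agent.helper42.PEL

open Finset

variable {ι : Type} [Fintype ι] [DecidableEq ι]

lemma W_mul {d e : ℕ} {f g : (ι → Bool) → ℝ} (hf : f ∈ W Finset.univ d)
    (hg : g ∈ W Finset.univ e) : (fun ω => f ω * g ω) ∈ W Finset.univ (d + e) := by
  induction hf using Submodule.span_induction with
  | mem f hf =>
    obtain ⟨S, -, hd, rfl⟩ := hf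
    induction hg using Submodule.span_induction with
    | mem g hg =>
      obtain ⟨S', -, hd', rfl⟩ := hg
      have : (fun ω => chi S ω * chi S' ω) = chi (symmDiff S S') := by
        funext ω; exact chi_mul _ _ _
      rw [this]
      refine chi_mem (Finset.subset_univ _) ?_
      calc (symmDiff S S').card ≤ (S ∪ S').card := by
            apply Finset.card_le_card
            intro i hi
            rcases Finset.mem_symmDiff.1 hi with h | h
            · exact Finset.mem_union_left _ h.1
            · exact Finset.mem_union_right _ h.1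
        _ ≤ S.card + S'.card := Finset.card_union_le _ _
        _ ≤ d + e := by omega
    | zero =>
      have : (fun ω => chi S ω * (0 : (ι → Bool) → ℝ) ω) = 0 := by funext ω; simp
      rw [this]; exact Submodule.zero_mem _
    | add f g _ _ hf hg =>
      have : (fun ω => chi S ω * (f + g) ω) = (fun ω => chi S ω * f ω) + fun ω => chi S ω * g ω := by
        funext ω; simp only [Pi.add_apply]; ring
      rw [this]; exact Submodule.add_mem _ hf hg
    | smul c f _ hf =>
      have : (fun ω => chi S ω * (c • f) ω) = c • fun ω => chi S ω * f ω := by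
        funext ω; simp only [Pi.smul_apply, smul_eq_mul]; ring
      rw [this]; exact Submodule.smul_mem _ _ hf
  | zero =>
    have : (fun ω => (0 : (ι → Bool) → ℝ) ω * g ω) = 0 := by funext ω; simp
    rw [this]; exact Submodule.zero_mem _
  | add f f' _ _ hf hf' =>
    have : (fun ω => (f + f') ω * g ω) = (fun ω => f ω * g ω) + fun ω => f' ω * g ω := by
      funext ω; simp only [Pi.add_apply]; ring
    rw [this]; exact Submodule.add_mem _ hf hf'
  | smul c f _ hf =>
    have : (fun ω => (c • f) ω * g ω) = c • fun ω => f ω * g ω := by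
      funext ω; simp only [Pi.smul_apply, smul_eq_mul]; ring
    rw [this]; exact Submodule.smul_mem _ _ hf

lemma W_pow {d : ℕ} {f : (ι → Bool) → ℝ} (hf : f ∈ W Finset.univ d) (k : ℕ) :
    (fun ω => f ω ^ k) ∈ W Finset.univ (k * d) := by
  induction k with
  | zero =>
    have : (fun ω => f ω ^ 0) = chi (∅ : Finset ι) := by rw [chi_empty]; funext ω; simp
    rw [this]
    exact chi_mem (Finset.subset_univ _) (by simp)
  | succ k ih =>
    have : (fun ω => f ω ^ (k + 1)) = fun ω => f ω ^ k * f ω := by funext ω; ring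
    rw [this]
    have h := W_mul ih hf
    have e : k * d + d = (k + 1) * d := by ring
    rw [e] at h
    exact h

/-- the constants of the iterated inequality -/
def gam (V : ℝ) (d : ℕ) : ℕ → ℝ
  | 0 => V
  | j + 1 => 9 ^ (2 ^ j * d) * (gam V d j) ^ 2

lemma gam_nonneg {V : ℝ} (hV : 0 ≤ V) (d : ℕ) : ∀ j, 0 ≤ gam V d j
  | 0 => hV
  | _ + 1 => mul_nonneg (by positivity) (sq_nonneg _)

theorem moment {d : ℕ} {f : (ι → Bool) → ℝ} (hf : f ∈ W Finset.univ d) {V : ℝ}
    (hV : EE (fun ω => f ω ^ 2) ≤ V) (j : ℕ) :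
    EE (fun ω => f ω ^ (2 ^ (j + 1))) ≤ gam V d j := by
  induction j with
  | zero => simpa [gam] using hV
  | succ j ih =>
    have h := bonami (Finset.univ : Finset ι) (2 ^ j * d) (fun ω => f ω ^ (2 ^ j)) (W_pow hf _)
    have e1 : (fun ω => (f ω ^ (2 ^ j)) ^ 4) = fun ω => f ω ^ (2 ^ (j + 1 + 1)) := by
      funext ω
      rw [← pow_mul]
      congr 1
      ring
    have e2 : (fun ω => (f ω ^ (2 ^ j)) ^ 2) = fun ω => f ω ^ (2 ^ (j + 1)) := by
      funext ω
      rw [← pow_mul]
      congr 1
    rw [e1, e2] at h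
    refine h.trans ?_
    unfold gam
    apply mul_le_mul_of_nonneg_left _ (by positivity)
    apply pow_le_pow_left₀ _ ih
    apply EE_nonneg
    intro ω
    rw [pow_succ, pow_mul]
    positivity

open Classical in
/-- indicator of an event -/
noncomputable def ind (P : (ι → Bool) → Prop) (ω : ι → Bool) : ℝ := if P ω then 1 else 0

lemma ind_nonneg (P : (ι → Bool) → Prop) (ω : ι → Bool) : 0 ≤ ind P ω := by
  unfold ind; split_ifs <;> norm_num

lemma ind_le_one (P : (ι → Bool) → Prop) (ω : ι → Bool) : ind P ω ≤ 1 := by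
  unfold ind; split_ifs <;> norm_num

lemma ind_of {P : (ι → Bool) → Prop} {ω : ι → Bool} (h : P ω) : ind P ω = 1 := by
  unfold ind; rw [if_pos h]

lemma ind_of_not {P : (ι → Bool) → Prop} {ω : ι → Bool} (h : ¬ P ω) : ind P ω = 0 := by
  unfold ind; rw [if_neg h]

/-- Markov's inequality at even exponents -/
lemma markov (f : (ι → Bool) → ℝ) {u : ℝ} (hu : 0 < u) (k : ℕ) {B : ℝ}
    (hB : EE (fun ω => f ω ^ (2 ^ (k + 1))) ≤ B) :
    EE (ind fun ω => u < |f ω|) ≤ B / u ^ (2 ^ (k + 1)) := by
  rw [le_div_iff₀ (by positivity)]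
  refine le_trans ?_ hB
  rw [mul_comm, ← EE_smul]
  apply EE_mono
  intro ω
  have he : f ω ^ (2 ^ (k + 1)) = |f ω| ^ (2 ^ (k + 1)) := by
    rw [pow_succ, mul_comm, pow_mul, pow_mul, sq_abs]
  by_cases h : u < |f ω|
  · rw [ind_of h, mul_one, he]
    exact pow_le_pow_left₀ hu.le h.le _
  · rw [ind_of_not h, mul_zero, he]
    positivity

/-- union bound: some point avoids all the events -/
lemma exists_of_EE_lt {P : (ι → Bool) → Prop} (h : EE (ind P) < 1) : ∃ ω, ¬ P ω := by
  by_contra hc
  push Not at hc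
  have : ind P = fun _ => 1 := by funext ω; exact ind_of (hc ω)
  rw [this, EE_const] at h
  exact lt_irrefl _ h

lemma ind_or_le (P Q : (ι → Bool) → Prop) :
    EE (ind fun ω => P ω ∨ Q ω) ≤ EE (ind P) + EE (ind Q) := by
  rw [← EE_add]
  apply EE_mono
  intro ω
  have h1 := ind_nonneg P ω
  have h2 := ind_nonneg Q ω
  by_cases h : P ω ∨ Q ω
  · rw [ind_of h]
    rcases h with h | h
    · rw [ind_of h]; linarith
    · rw [ind_of h]; linarith
  · rw [ind_of_not h]; linarith

lemma ind_exists_le {κ : Type} (s : Finset κ) (P : κ → (ι → Bool) → Prop) :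
    EE (ind fun ω => ∃ k ∈ s, P k ω) ≤ ∑ k ∈ s, EE (ind (P k)) := by
  rw [← EE_sum]
  apply EE_mono
  intro ω
  by_cases h : ∃ k ∈ s, P k ω
  · obtain ⟨k, hk, hP⟩ := h
    rw [ind_of ⟨k, hk, hP⟩]
    have := Finset.single_le_sum (f := fun k => ind (P k) ω) (fun i _ => ind_nonneg _ _) hk
    simp only [ind_of hP] at this
    exact this
  · rw [ind_of_not h]
    exact Finset.sum_nonneg fun i _ => ind_nonneg _ _

lemma ind_mono {P Q : (ι → Bool) → Prop} (h : ∀ ω, P ω → Q ω) : EE (ind P) ≤ EE (ind Q) := by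
  apply EE_mono
  intro ω
  by_cases hp : P ω
  · rw [ind_of hp, ind_of (h ω hp)]
  · rw [ind_of_not hp]; exact ind_nonneg _ _

/-- the function depends only on the coordinates in `S` -/
def Dep (f : (ι → Bool) → ℝ) (S : Finset ι) : Prop :=
  ∀ ω ω' : ι → Bool, (∀ i ∈ S, ω i = ω' i) → f ω = f ω'

lemma EE_indep {f g : (ι → Bool) → ℝ} {S S' : Finset ι} (hf : Dep f S) (hg : Dep g S')
    (hd : Disjoint S S') : EE (fun ω => f ω * g ω) = EE f * EE g := by
  classical
  set gl : (ι → Bool) → (ι → Bool) → (ι → Bool) := fun ω ω' i => if i ∈ S then ω i else ω' i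
    with hgl
  let φ : (ι → Bool) × (ι → Bool) → (ι → Bool) × (ι → Bool) := fun x => (gl x.1 x.2, gl x.2 x.1)
  have hφ : Function.Involutive φ := by
    rintro ⟨a, b⟩
    simp only [φ, hgl]
    refine Prod.ext ?_ ?_
    · funext i
      simp only
      split_ifs <;> rfl
    · funext i
      simp only
      split_ifs <;> rfl
  have h1 : ∑ x : (ι → Bool) × (ι → Bool), f x.1 * g x.2 =
      ∑ x : (ι → Bool) × (ι → Bool), f x.1 * g x.1 := by
    rw [← Equiv.sum_comp (hφ.toPerm φ) (fun x => f x.1 * g x.1)]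
    apply Finset.sum_congr rfl
    rintro ⟨a, b⟩ _
    have e1 : f a = f (gl a b) := by
      apply hf
      intro i hi
      simp only [hgl, if_pos hi]
    have e2 : g b = g (gl a b) := by
      apply hg
      intro i hi
      have : i ∉ S := fun h => (Finset.disjoint_left.1 hd h) hi
      simp only [hgl, if_neg this]
    show f a * g b = f (gl a b) * g (gl a b)
    rw [← e1, ← e2]
  have h2 : ∑ x : (ι → Bool) × (ι → Bool), f x.1 * g x.2 = (∑ ω, f ω) * ∑ ω, g ω := by
    rw [Fintype.sum_prod_type, Finset.sum_mul_sum]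
  have h3 : ∑ x : (ι → Bool) × (ι → Bool), f x.1 * g x.1 =
      (2 ^ Fintype.card ι : ℝ) * ∑ ω, f ω * g ω := by
    rw [Fintype.sum_prod_type]
    simp only [Finset.sum_const, Finset.card_univ, nsmul_eq_mul]
    rw [Fintype.card_pi]
    simp only [Fintype.card_bool, Finset.prod_const, Finset.card_univ]
    push_cast
    rw [Finset.mul_sum]
  unfold EE
  rw [div_mul_div_comm, ← h2, h1, h3]
  field_simp

lemma Dep_prod {κ : Type} [DecidableEq κ] (s : Finset κ) (f : κ → (ι → Bool) → ℝ)
    (S : κ → Finset ι) (h : ∀ k ∈ s, Dep (f k) (S k)) :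
    Dep (fun ω => ∏ k ∈ s, f k ω) (s.biUnion S) := by
  intro ω ω' hh
  apply Finset.prod_congr rfl
  intro k hk
  apply h k hk
  intro i hi
  exact hh i (Finset.mem_biUnion.2 ⟨k, hk, hi⟩)

lemma EE_prod_indep {κ : Type} [DecidableEq κ] (s : Finset κ) (f : κ → (ι → Bool) → ℝ)
    (S : κ → Finset ι) (h : ∀ k ∈ s, Dep (f k) (S k))
    (hd : ∀ k ∈ s, ∀ l ∈ s, k ≠ l → Disjoint (S k) (S l)) :
    EE (fun ω => ∏ k ∈ s, f k ω) = ∏ k ∈ s, EE (f k) := by
  induction s using Finset.induction_on with
  | empty => simp [EE_const]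
  | insert a s ha ih =>
    rw [Finset.prod_insert ha]
    have e : (fun ω => ∏ k ∈ insert a s, f k ω) = fun ω => f a ω * ∏ k ∈ s, f k ω := by
      funext ω; rw [Finset.prod_insert ha]
    rw [e, EE_indep (h a (Finset.mem_insert_self _ _))
      (Dep_prod s f S fun k hk => h k (Finset.mem_insert_of_mem hk)), ih]
    · exact fun k hk => h k (Finset.mem_insert_of_mem hk)
    · exact fun k hk l hl => hd k (Finset.mem_insert_of_mem hk) l (Finset.mem_insert_of_mem hl)
    · rw [Finset.disjoint_biUnion_right]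
      intro k hk
      exact hd a (Finset.mem_insert_self _ _) k (Finset.mem_insert_of_mem hk)
        (fun h => ha (h ▸ hk))

lemma chi_EE {S : Finset ι} (h : S.Nonempty) : EE (chi S) = 0 := by
  obtain ⟨a, ha⟩ := h
  have : chi S = fun ω => sg (ω a) * chi (S.erase a) ω := by
    funext ω; exact chi_erase ha ω
  rw [this]
  exact EE_odd a _ fun ω => chi_flp (Finset.notMem_erase a S) ω

lemma chi_chi_EE (S S' : Finset ι) :
    EE (fun ω => chi S ω * chi S' ω) = if S = S' then 1 else 0 := by
  have e : (fun ω => chi S ω * chi S' ω) = chi (symmDiff S S') := by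
    funext ω; exact chi_mul _ _ _
  rw [e]
  split_ifs with h
  · subst h
    rw [symmDiff_self]
    have : chi (⊥ : Finset ι) = fun _ => 1 := chi_empty
    rw [this, EE_const]
  · apply chi_EE
    rw [Finset.nonempty_iff_ne_empty]
    intro h2
    exact h (symmDiff_eq_bot.1 h2)

/-- second moment of a Walsh sum whose frequencies coincide at most in pairs -/
lemma sq_walsh {κ : Type} [Fintype κ] [DecidableEq κ] (c : κ → ℝ) (S : κ → Finset ι) (sw : κ → κ)
    (hsw : Function.Involutive sw)
    (h : ∀ k l, c k ≠ 0 → c l ≠ 0 → S k = S l → l = k ∨ l = sw k) :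
    EE (fun ω => (∑ k, c k * chi (S k) ω) ^ 2) ≤ 2 * ∑ k, c k ^ 2 := by
  have e : (fun ω => (∑ k, c k * chi (S k) ω) ^ 2) =
      fun ω => ∑ k, ∑ l, (c k * c l) * (chi (S k) ω * chi (S l) ω) := by
    funext ω
    rw [sq, Finset.sum_mul_sum]
    apply Finset.sum_congr rfl fun k _ => Finset.sum_congr rfl fun l _ => by ring
  rw [e, EE_sum]
  have e2 : ∀ k, EE (fun ω => ∑ l, (c k * c l) * (chi (S k) ω * chi (S l) ω)) =
      ∑ l, (c k * c l) * (if S k = S l then 1 else 0) := by
    intro k
    rw [EE_sum]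
    apply Finset.sum_congr rfl
    intro l _
    rw [EE_smul, chi_chi_EE]
  have e3 : ∀ k, ∑ l, (c k * c l) * (if S k = S l then (1 : ℝ) else 0) ≤
      |c k| * |c k| + |c k| * |c (sw k)| := by
    intro k
    have h4 : ∀ l, (c k * c l) * (if S k = S l then (1 : ℝ) else 0) ≤
        (if l = k then |c k| * |c k| else 0) + (if l = sw k then |c k| * |c (sw k)| else 0) := by
      intro l
      have p1 : 0 ≤ |c k| * |c k| := by positivity
      have p2 : 0 ≤ |c k| * |c (sw k)| := by positivity
      have q1 : 0 ≤ (if l = k then |c k| * |c k| else 0) := by split_ifs <;> [exact p1; exact le_rfl]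
      have q2 : 0 ≤ (if l = sw k then |c k| * |c (sw k)| else 0) := by
        split_ifs <;> [exact p2; exact le_rfl]
      by_cases hk : c k = 0
      · rw [hk]; simp
      by_cases hl : c l = 0
      · rw [hl]; simp only [mul_zero, zero_mul]; linarith
      by_cases hS : S k = S l
      · rw [if_pos hS, mul_one]
        have h5 : c k * c l ≤ |c k| * |c l| := by rw [← abs_mul]; exact le_abs_self _
        rcases h k l hk hl hS with h6 | h6
        · subst h6
          rw [if_pos rfl]
          linarith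
        · have q3 : |c k| * |c l| = (if l = sw k then |c k| * |c (sw k)| else 0) := by
            rw [if_pos h6, h6]
          linarith
      · rw [if_neg hS, mul_zero]; linarith
    calc _ ≤ ∑ l, ((if l = k then |c k| * |c k| else 0) +
          (if l = sw k then |c k| * |c (sw k)| else 0)) := Finset.sum_le_sum fun l _ => h4 l
      _ = _ := by
        rw [Finset.sum_add_distrib, Finset.sum_ite_eq' Finset.univ k, Finset.sum_ite_eq' Finset.univ
          (sw k)]
        simp
  have e5 : ∑ k, c (sw k) ^ 2 = ∑ k, c k ^ 2 :=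
    Equiv.sum_comp (hsw.toPerm sw) fun k => c k ^ 2
  calc ∑ k, EE (fun ω => ∑ l, (c k * c l) * (chi (S k) ω * chi (S l) ω))
      ≤ ∑ k, (|c k| * |c k| + |c k| * |c (sw k)|) := by
        apply Finset.sum_le_sum
        intro k _
        rw [e2]
        exact e3 k
    _ ≤ ∑ k, (c k ^ 2 + (c k ^ 2 + c (sw k) ^ 2) / 2) := by
        apply Finset.sum_le_sum
        intro k _
        have h1 : |c k| * |c k| = c k ^ 2 := by rw [← sq, sq_abs]
        have h2 := two_mul_le_add_sq |c k| |c (sw k)|
        rw [sq_abs, sq_abs] at h2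
        linarith
    _ = 2 * ∑ k, c k ^ 2 := by
        rw [Finset.sum_add_distrib, ← Finset.sum_div, Finset.sum_add_distrib, e5]
        ring

end Pool.Agent.helper42.PEL
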