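import Pool.Agent.helper42.PEL.Moments

/-!
# Bilinear sign chaos of a family of sign vectors

The sample space is the cube over `τ × A`: `ω (t, a)` is the sign number `a` of the sample `t`.
-/

set_option autoImplicit false
set_option linter.unusedSectionVars false

namespace Pool.Agent.helper42.PEL

open Finset

variable {τ A : Type} [Fintype τ] [DecidableEq τ] [Fintype A] [DecidableEq A]

/-- the sign number `a` of the sample `t` -/
def xs (ω : τ × A → Bool) (t : τ) (a : A) : ℝ := sg (ω (t, a))

/-- centred bilinear form of two samples -/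
noncomputable def bf (M : A → A → ℝ) (s t : τ) (ω : τ × A → Bool) : ℝ :=
  (∑ a, ∑ b, M a b * xs ω s a * xs ω t b) - if s = t then ∑ a, M a a else 0

/-- coefficients -/
noncomputable def cf (M : A → A → ℝ) (s t : τ) (k : A × A) : ℝ :=
  if s = t ∧ k.1 = k.2 then 0 else M k.1 k.2

/-- frequencies -/
def fq (s t : τ) (k : A × A) : Finset (τ × A) := symmDiff {(s, k.1)} {(t, k.2)}

lemma chi_singleton (i : τ × A) (ω : τ × A → Bool) : chi {i} ω = sg (ω i) := by simp [chi]

lemma bf_eq (M : A → A → ℝ) (s t : τ) (ω : τ × A → Bool) :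
    bf M s t ω = ∑ k : A × A, cf M s t k * chi (fq s t k) ω := by
  have h : ∀ a b : A, cf M s t (a, b) * chi (fq s t (a, b)) ω =
      M a b * xs ω s a * xs ω t b - if s = t ∧ a = b then M a b else 0 := by
    intro a b
    unfold cf fq xs
    rw [← chi_mul, chi_singleton, chi_singleton]
    split_ifs with h
    · obtain ⟨h1, h2⟩ := h
      simp only at h1 h2
      subst h1; subst h2
      simp only
      rw [mul_assoc, sg_mul_self]
      ring
    · ring
  rw [Fintype.sum_prod_type]
  simp only [h]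
  unfold bf
  have e1 : ∑ a, ∑ b, (M a b * xs ω s a * xs ω t b - if s = t ∧ a = b then M a b else 0) =
      ∑ a, ∑ b, M a b * xs ω s a * xs ω t b - ∑ a, ∑ b, (if s = t ∧ a = b then M a b else 0) := by
    rw [← Finset.sum_sub_distrib]
    apply Finset.sum_congr rfl
    intro a _
    rw [Finset.sum_sub_distrib]
  rw [e1]
  congr 1
  by_cases hst : s = t
  · simp only [hst, true_and, if_true]
    apply Finset.sum_congr rfl
    intro a _
    rw [Finset.sum_ite_eq Finset.univ a (fun b => M a b)]
    simp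
  · simp [hst]

lemma fq_card (s t : τ) (k : A × A) : (fq s t k).card ≤ 2 := by
  unfold fq
  calc (symmDiff {(s, k.1)} {(t, k.2)} : Finset (τ × A)).card
      ≤ (({(s, k.1)} : Finset (τ × A)) ∪ {(t, k.2)}).card := by
        apply Finset.card_le_card
        intro i hi
        rcases Finset.mem_symmDiff.1 hi with h | h
        · exact Finset.mem_union_left _ h.1
        · exact Finset.mem_union_right _ h.1
    _ ≤ 2 := (Finset.card_union_le _ _).trans (by simp)

lemma bf_mem (M : A → A → ℝ) (s t : τ) : bf M s t ∈ W (Finset.univ : Finset (τ × A)) 2 := by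
  have : bf M s t = ∑ k : A × A, cf M s t k • chi (fq s t k) := by
    funext ω
    rw [bf_eq]
    simp [Finset.sum_apply]
  rw [this]
  exact Submodule.sum_mem _ fun k _ => Submodule.smul_mem _ _
    (chi_mem (Finset.subset_univ _) (fq_card _ _ _))

lemma fq_eq_ne {s t : τ} (hst : s ≠ t) (k : A × A) : fq s t k = {(s, k.1), (t, k.2)} := by
  unfold fq
  ext i
  simp only [Finset.mem_symmDiff, Finset.mem_singleton, Finset.mem_insert]
  constructor
  · rintro (h | h)
    · exact Or.inl h.1
    · exact Or.inr h.1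
  · rintro (h | h)
    · refine Or.inl ⟨h, fun h2 => hst ?_⟩
      rw [h] at h2
      exact (Prod.ext_iff.1 h2).1
    · refine Or.inr ⟨h, fun h2 => hst ?_⟩
      rw [h] at h2
      exact (Prod.ext_iff.1 h2).1.symm

lemma fq_eq_same {s : τ} {k : A × A} (hk : k.1 ≠ k.2) : fq s s k = {(s, k.1), (s, k.2)} := by
  unfold fq
  ext i
  simp only [Finset.mem_symmDiff, Finset.mem_singleton, Finset.mem_insert]
  constructor
  · rintro (h | h)
    · exact Or.inl h.1
    · exact Or.inr h.1
  · rintro (h | h)
    · refine Or.inl ⟨h, fun h2 => hk ?_⟩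
      rw [h] at h2
      exact (Prod.ext_iff.1 h2).2
    · refine Or.inr ⟨h, fun h2 => hk ?_⟩
      rw [h] at h2
      exact (Prod.ext_iff.1 h2).2.symm

lemma bf_sq (M : A → A → ℝ) (s t : τ) :
    EE (fun ω => bf M s t ω ^ 2) ≤ 2 * ∑ a, ∑ b, M a b ^ 2 := by
  have h1 : (fun ω => bf M s t ω ^ 2) =
      fun ω => (∑ k : A × A, cf M s t k * chi (fq s t k) ω) ^ 2 := by
    funext ω; rw [bf_eq]
  rw [h1]
  refine (sq_walsh (cf M s t) (fq s t) Prod.swap Prod.swap_swap ?_).trans ?_
  · intro k l hk hl hS
    by_cases hst : s = t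
    · subst hst
      have hk' : k.1 ≠ k.2 := by
        intro h; apply hk; unfold cf; rw [if_pos ⟨rfl, h⟩]
      have hl' : l.1 ≠ l.2 := by
        intro h; apply hl; unfold cf; rw [if_pos ⟨rfl, h⟩]
      rw [fq_eq_same hk', fq_eq_same hl'] at hS
      have m1 : (s, l.1) ∈ ({(s, k.1), (s, k.2)} : Finset (τ × A)) := by rw [hS]; simp
      have m2 : (s, l.2) ∈ ({(s, k.1), (s, k.2)} : Finset (τ × A)) := by rw [hS]; simp
      simp only [Finset.mem_insert, Finset.mem_singleton, Prod.mk.injEq, true_and] at m1 m2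
      rcases m1 with m1 | m1
      · rcases m2 with m2 | m2
        · exact absurd (m1.trans m2.symm) hl'
        · exact Or.inl (Prod.ext m1 m2)
      · rcases m2 with m2 | m2
        · exact Or.inr (Prod.ext m1 m2)
        · exact absurd (m1.trans m2.symm) hl'
    · rw [fq_eq_ne hst, fq_eq_ne hst] at hS
      left
      have m1 : (s, l.1) ∈ ({(s, k.1), (t, k.2)} : Finset (τ × A)) := by rw [hS]; simp
      have m2 : (t, l.2) ∈ ({(s, k.1), (t, k.2)} : Finset (τ × A)) := by rw [hS]; simp
      simp only [Finset.mem_insert, Finset.mem_singleton, Prod.mk.injEq] at m1 m2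
      have m3 : l.1 = k.1 := by
        rcases m1 with m1 | m1
        · exact m1.2
        · exact absurd m1.1 hst
      have m4 : l.2 = k.2 := by
        rcases m2 with m2 | m2
        · exact absurd m2.1.symm hst
        · exact m2.2
      exact Prod.ext m3 m4
  · rw [Fintype.sum_prod_type]
    apply mul_le_mul_of_nonneg_left _ (by norm_num)
    apply Finset.sum_le_sum fun a _ => Finset.sum_le_sum fun b _ => ?_
    unfold cf
    split_ifs
    · simp only [ne_eq, OfNat.ofNat_ne_zero, not_false_eq_true, zero_pow]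
      exact sq_nonneg _
    · exact le_rfl

lemma bf_dep (M : A → A → ℝ) (s t : τ) :
    Dep (bf M s t) (({s, t} : Finset τ) ×ˢ (Finset.univ : Finset A)) := by
  intro ω ω' h
  unfold bf xs
  congr 1
  apply Finset.sum_congr rfl fun a _ => Finset.sum_congr rfl fun b _ => ?_
  rw [h (s, a) (by simp), h (t, b) (by simp)]

/-- probability of a bad pair -/
lemma bf_tail (M : A → A → ℝ) (s t : τ) {V u : ℝ} (hV : 2 * ∑ a, ∑ b, M a b ^ 2 ≤ V) (hu : 0 < u)
    (j : ℕ) :
    EE (ind fun ω => u < |bf M s t ω|) ≤ gam V 2 j / u ^ (2 ^ (j + 1)) :=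
  markov _ hu j (moment (bf_mem M s t) ((bf_sq M s t).trans hV) j)

/-- a family of disjoint bad pairs -/
def badFam (M : A → A → ℝ) (u : ℝ) (𝓕 : Finset (τ × τ)) (ω : τ × A → Bool) : Prop :=
  (∀ k ∈ 𝓕, ∀ l ∈ 𝓕, k ≠ l → Disjoint ({k.1, k.2} : Finset τ) {l.1, l.2}) ∧
    ∀ k ∈ 𝓕, u < |bf M k.1 k.2 ω|

lemma badFam_prob (M : A → A → ℝ) {u p : ℝ} (𝓕 : Finset (τ × τ))
    (hp : ∀ s t : τ, EE (ind fun ω : τ × A → Bool => u < |bf M s t ω|) ≤ p) :
    EE (ind (badFam M u 𝓕)) ≤ p ^ 𝓕.card := by
  by_cases hd : ∀ k ∈ 𝓕, ∀ l ∈ 𝓕, k ≠ l → Disjoint ({k.1, k.2} : Finset τ) {l.1, l.2}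
  · have h1 : EE (ind (badFam M u 𝓕)) ≤
        EE (fun ω => ∏ k ∈ 𝓕, ind (fun ω : τ × A → Bool => u < |bf M k.1 k.2 ω|) ω) := by
      apply EE_mono
      intro ω
      by_cases h : badFam M u 𝓕 ω
      · rw [ind_of h]
        apply le_of_eq
        symm
        exact Finset.prod_eq_one fun k hk => ind_of (h.2 k hk)
      · rw [ind_of_not h]
        exact Finset.prod_nonneg fun k _ => ind_nonneg _ _
    refine h1.trans ?_
    rw [EE_prod_indep 𝓕 _ (fun k => ({k.1, k.2} : Finset τ) ×ˢ (Finset.univ : Finset A))]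
    · rw [← Finset.prod_const]
      exact Finset.prod_le_prod (fun k _ => EE_nonneg fun ω => ind_nonneg _ _)
        fun k _ => hp k.1 k.2
    · intro k _ ω ω' h
      have := bf_dep M k.1 k.2 ω ω' h
      simp only [ind, this]
    · intro k hk l hl hkl
      rw [Finset.disjoint_product]
      exact Or.inl (hd k hk l hl hkl)
  · have : ind (badFam M u 𝓕) = fun _ => 0 := by
      funext ω
      exact ind_of_not fun h => hd h.1
    rw [this, EE_const]
    have hp0 : 0 ≤ p ∨ IsEmpty τ := by
      by_cases h : IsEmpty τ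
      · exact Or.inr h
      · rw [not_isEmpty_iff] at h
        obtain ⟨s⟩ := h
        exact Or.inl ((EE_nonneg fun ω => ind_nonneg _ _).trans (hp s s))
    rcases hp0 with h | h
    · exact pow_nonneg h _
    · exfalso
      apply hd
      intro k
      exact (IsEmpty.false k.1).elim

/-- probability that there is a family of `q` disjoint bad pairs -/
lemma badFam_prob_exists (M : A → A → ℝ) {u p : ℝ} (hp0 : 0 ≤ p) (q : ℕ)
    (hp : ∀ s t : τ, EE (ind fun ω : τ × A → Bool => u < |bf M s t ω|) ≤ p) :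
    EE (ind fun ω => ∃ 𝓕 ∈ Finset.powersetCard q (Finset.univ : Finset (τ × τ)), badFam M u 𝓕 ω) ≤
      ((Fintype.card τ : ℝ) ^ 2 * p) ^ q := by
  refine (ind_exists_le _ _).trans ?_
  have h1 : ∀ 𝓕 ∈ Finset.powersetCard q (Finset.univ : Finset (τ × τ)),
      EE (ind (badFam M u 𝓕)) ≤ p ^ q := by
    intro 𝓕 h𝓕
    have := badFam_prob M 𝓕 hp
    rwa [(Finset.mem_powersetCard.1 h𝓕).2] at this
  refine (Finset.sum_le_sum h1).trans ?_
  rw [Finset.sum_const, Finset.card_powersetCard, Finset.card_univ, Fintype.card_prod,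
    nsmul_eq_mul, mul_pow]
  apply mul_le_mul_of_nonneg_right _ (by positivity)
  have h2 : (Fintype.card τ * Fintype.card τ).choose q ≤ (Fintype.card τ * Fintype.card τ) ^ q :=
    Nat.choose_le_pow _ _
  calc ((Fintype.card τ * Fintype.card τ).choose q : ℝ)
      ≤ ((Fintype.card τ * Fintype.card τ) ^ q : ℕ) := by exact_mod_cast h2
    _ = _ := by push_cast; ring

/-- without `q` disjoint bad pairs, all bad pairs meet a small set -/
lemma exc_of_no_fam (M : A → A → ℝ) (u : ℝ) (q : ℕ) (ω : τ × A → Bool)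
    (h : ¬ ∃ 𝓕 ∈ Finset.powersetCard q (Finset.univ : Finset (τ × τ)), badFam M u 𝓕 ω) :
    ∃ Ex : Finset τ, Ex.card ≤ 2 * q ∧ ∀ s t, s ∉ Ex → t ∉ Ex → |bf M s t ω| ≤ u := by
  have key : ∀ k : ℕ, k ≤ q → (∃ 𝓕 : Finset (τ × τ), 𝓕.card = k ∧ badFam M u 𝓕 ω) ∨
      ∃ Ex : Finset τ, Ex.card ≤ 2 * q ∧ ∀ s t, s ∉ Ex → t ∉ Ex → |bf M s t ω| ≤ u := by
    intro k
    induction k with
    | zero => intro _; exact Or.inl ⟨∅, rfl, by simp [badFam]⟩
    | succ k ih =>
      intro hk
      rcases ih (by omega) with ⟨𝓕, hc, hd, hb⟩ | h'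
      · set Ex : Finset τ := 𝓕.biUnion fun k => {k.1, k.2} with hEx
        by_cases hall : ∀ s t, s ∉ Ex → t ∉ Ex → |bf M s t ω| ≤ u
        · right
          refine ⟨Ex, ?_, hall⟩
          calc Ex.card ≤ ∑ k ∈ 𝓕, (({k.1, k.2} : Finset τ)).card := Finset.card_biUnion_le
            _ ≤ ∑ _k ∈ 𝓕, 2 := Finset.sum_le_sum fun k _ => Finset.card_le_two
            _ ≤ 2 * q := by rw [Finset.sum_const, hc]; simp only [smul_eq_mul]; omega
        · push Not at hall
          obtain ⟨s, t, hs, ht, hbad⟩ := hall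
          left
          have hdis : ∀ k ∈ 𝓕, Disjoint ({s, t} : Finset τ) {k.1, k.2} := by
            intro k hk
            rw [Finset.disjoint_left]
            intro x hx hx2
            have hxE : x ∈ Ex := Finset.mem_biUnion.2 ⟨k, hk, hx2⟩
            rcases Finset.mem_insert.1 hx with rfl | h2
            · exact hs hxE
            · rw [Finset.mem_singleton] at h2
              subst h2
              exact ht hxE
          have hnot : (s, t) ∉ 𝓕 := by
            intro hin
            have := hdis _ hin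
            exact Finset.disjoint_left.1 this (show s ∈ ({s, t} : Finset τ) by simp) (by simp)
          refine ⟨insert (s, t) 𝓕, by rw [Finset.card_insert_of_notMem hnot, hc], ?_, ?_⟩
          · intro k hk l hl hkl
            rcases Finset.mem_insert.1 hk with rfl | hk
            · rcases Finset.mem_insert.1 hl with rfl | hl
              · exact absurd rfl hkl
              · exact hdis l hl
            · rcases Finset.mem_insert.1 hl with rfl | hl
              · exact (hdis k hk).symm
              · exact hd k hk l hl hkl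
          · intro k hk
            rcases Finset.mem_insert.1 hk with rfl | hk
            · exact hbad
            · exact hb k hk
      · exact Or.inr h'
  rcases key q le_rfl with ⟨𝓕, hc, hb⟩ | h'
  · exact absurd ⟨𝓕, Finset.mem_powersetCard.2 ⟨Finset.subset_univ _, hc⟩, hb⟩ h
  · exact h'

end Pool.Agent.helper42.PEL
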